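import Mathlib
import Pool.Agent.H319R3.GC.Main
import Pool.Agent.H319R2.GMoller2

set_option autoImplicit false

/-!
Generalised Hasse–Syracuse maps in Möller's range: almost all orbits (natural density) attain
almost bounded values.
-/

namespace Pool.Agent.Results.MP_fd8838_nt.AlmostBounded

open Finset Filter Topology

/-- the map `T(n) = n / d` if `d ∣ n` and `(m n - r_j) / d` if `n ≡ j mod d`, `1 ≤ j < d` -/
def T (d m : ℕ) (r : ℕ → ℤ) (n : ℤ) : ℤ :=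
  if (d : ℤ) ∣ n then n / d else (m * n - r (n % d).toNat) / d

/-- Let `gcd(m, d) = 1`, `m ≤ d ^ (d / (d - 1))` and `r_j ≡ m j mod d`.
(1) For every `B` there is `C` such that for all `X ≥ 1`, `y ≥ 2` at most `C X / (log y) ^ B` of the
integers `x` with `|x| ≤ X` have an orbit under `T` which never enters `[-y, y]`.
(2) For every `ε > 0` there is a finite set `F` of integers such that for every `X ≥ 1` at most `ε X`
of the integers `x` with `|x| ≤ X` have an orbit which misses `F`.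
(3) If `f(x) → ∞` as `|x| → ∞`, then the `x` whose orbit stays `≥ f(x)` in absolute value have
natural density zero. -/
theorem result (d m : ℕ) (hd : 2 ≤ d) (hc : Nat.Coprime m d)
    (hle : (m : ℝ) ≤ (d : ℝ) ^ ((d : ℝ) / ((d : ℝ) - 1)))
    (r : ℕ → ℤ) (hr : ∀ j : ℕ, 1 ≤ j → j < d → r j ≡ m * j [ZMOD d]) :
    (∀ B : ℕ, ∃ C : ℝ, 0 < C ∧ ∀ X y : ℝ, 1 ≤ X → 2 ≤ y →
      (Set.ncard {x : ℤ | |(x : ℝ)| ≤ X ∧ ∀ n : ℕ, y < |(((T d m r)^[n] x : ℤ) : ℝ)|} : ℝ)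
        ≤ C * X / Real.log y ^ B) ∧
    (∀ ε : ℝ, 0 < ε → ∃ F : Finset ℤ, ∀ X : ℝ, 1 ≤ X →
      (Set.ncard {x : ℤ | |(x : ℝ)| ≤ X ∧ ∀ n : ℕ, (T d m r)^[n] x ∉ F} : ℝ) ≤ ε * X) ∧
    (∀ f : ℤ → ℝ, Tendsto f cofinite atTop →
      Tendsto (fun N : ℕ => (Set.ncard {x : ℤ | |x| ≤ (N : ℤ) ∧
        ∀ n : ℕ, f x ≤ |(((T d m r)^[n] x : ℤ) : ℝ)|} : ℝ) / (2 * (N : ℝ) + 1)) atTop (𝓝 0)) := by
  have hd0 : 0 < d := by omega
  set m' : ℕ → ℤ := fun i => if i = 0 then 1 else (m : ℤ) with hm'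
  set r' : ℕ → ℤ := fun i => if i = 0 then 0 else r i with hr'
  have hT : T d m r = H319R3.GC.Tm d m' r' := by
    funext n
    unfold T H319R3.GC.Tm
    have hn0 : 0 ≤ n % (d : ℤ) := Int.emod_nonneg _ (by omega)
    by_cases h : (d : ℤ) ∣ n
    · have h1 : (n % (d : ℤ)).toNat = 0 := by
        rw [Int.emod_eq_zero_of_dvd h]; rfl
      rw [if_pos h, h1]
      simp [hm', hr']
    · have h1 : (n % (d : ℤ)).toNat ≠ 0 := by
        intro h2
        apply h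
        apply Int.dvd_of_emod_eq_zero
        omega
      rw [if_neg h]
      simp [hm', hr', h1]
  have hcop : ∀ i < d, IsCoprime (m' i) (d : ℤ) := by
    intro i _
    simp only [hm']
    split_ifs
    · exact isCoprime_one_left
    · exact Nat.isCoprime_iff_coprime.2 hc
  have hadm : ∀ i < d, (d : ℤ) ∣ m' i * i - r' i := by
    intro i hi
    simp only [hm', hr']
    split_ifs with h0
    · subst h0; simp
    · exact (hr i (by omega) hi).dvd
  have hprod : ∏ i ∈ range d, (m' i).natAbs < d ^ d := by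
    obtain ⟨e, rfl⟩ : ∃ e, d = e + 1 := ⟨d - 1, by omega⟩
    rw [Finset.prod_range_succ']
    have h1 : ∀ i ∈ range e, (m' (i + 1)).natAbs = m := by
      intro i _
      simp [hm']
    rw [Finset.prod_congr rfl h1, Finset.prod_const, card_range]
    have h2 : (m' 0).natAbs = 1 := by simp [hm']
    rw [h2, mul_one]
    have h3 := Pool.Agent.H319R2.Moller.pow_le_of_rpow (d := e + 1) (m := m) hd hle
    simp only [Nat.add_sub_cancel] at h3
    refine lt_of_le_of_ne h3 ?_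
    intro h4
    have h5 : Nat.Coprime (m ^ e) ((e + 1) ^ (e + 1)) := Nat.Coprime.pow _ _ hc
    rw [h4, Nat.coprime_self] at h5
    have : 1 < (e + 1) ^ (e + 1) := Nat.one_lt_pow (by omega) (by omega)
    omega
  have key : ∀ B : ℕ, ∃ C : ℝ, 0 < C ∧ ∀ X y : ℝ, 1 ≤ X → 2 ≤ y →
      (Set.ncard {x : ℤ | |(x : ℝ)| ≤ X ∧ ∀ n : ℕ, y < |(((T d m r)^[n] x : ℤ) : ℝ)|} : ℝ)
        ≤ C * X / Real.log y ^ B := by
    rw [hT]
    exact fun B => H319R3.GC.main_all hd hcop hadm hprod B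
  have fin : ∀ (X : ℝ) (p : ℤ → Prop), {x : ℤ | |(x : ℝ)| ≤ X ∧ p x}.Finite := by
    intro X p
    refine (Set.finite_Icc (-⌊X⌋) ⌊X⌋).subset ?_
    intro x hx
    have h1 := abs_le.1 hx.1
    constructor
    · have : ((-x : ℤ) : ℝ) ≤ X := by push_cast; linarith [h1.1]
      have := Int.le_floor.2 this
      omega
    · exact Int.le_floor.2 h1.2
  have key2 : ∀ ε : ℝ, 0 < ε → ∃ Y : ℝ, 2 ≤ Y ∧ ∀ X : ℝ, 1 ≤ X →
      (Set.ncard {x : ℤ | |(x : ℝ)| ≤ X ∧ ∀ n : ℕ, Y < |(((T d m r)^[n] x : ℤ) : ℝ)|} : ℝ)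
        ≤ ε * X := by
    intro ε hε
    obtain ⟨C, hC, h⟩ := key 1
    refine ⟨max 2 (Real.exp (C / ε)), le_max_left _ _, ?_⟩
    intro X hX
    refine (h X _ hX (le_max_left _ _)).trans ?_
    have h1 : C / ε ≤ Real.log (max 2 (Real.exp (C / ε))) := by
      rw [← Real.log_exp (C / ε)]
      exact Real.log_le_log (Real.exp_pos _) (by rw [Real.log_exp]; exact le_max_right _ _)
    have h2 : 0 < C / ε := by positivity
    rw [pow_one, div_le_iff₀ (by linarith)]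
    have h3 : C ≤ ε * Real.log (max 2 (Real.exp (C / ε))) := by
      rw [div_le_iff₀ hε] at h1
      linarith
    nlinarith
  refine ⟨key, ?_, ?_⟩
  · intro ε hε
    obtain ⟨Y, hY, h⟩ := key2 ε hε
    refine ⟨Finset.Icc (-⌊Y⌋) ⌊Y⌋, ?_⟩
    intro X hX
    refine le_trans ?_ (h X hX)
    have hsub : {x : ℤ | |(x : ℝ)| ≤ X ∧ ∀ n : ℕ, (T d m r)^[n] x ∉ Finset.Icc (-⌊Y⌋) ⌊Y⌋} ⊆
        {x : ℤ | |(x : ℝ)| ≤ X ∧ ∀ n : ℕ, Y < |(((T d m r)^[n] x : ℤ) : ℝ)|} := by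
      rintro x ⟨hx, hx2⟩
      refine ⟨hx, fun n => ?_⟩
      by_contra hcon
      push Not at hcon
      apply hx2 n
      have h1 := abs_le.1 hcon
      rw [Finset.mem_Icc]
      constructor
      · have : ((-((T d m r)^[n] x) : ℤ) : ℝ) ≤ Y := by push_cast; linarith [h1.1]
        have := Int.le_floor.2 this
        omega
      · exact Int.le_floor.2 h1.2
    exact_mod_cast Set.ncard_le_ncard hsub (fin _ _)
  · intro f hf
    rw [Metric.tendsto_atTop]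
    intro ε hε
    obtain ⟨Y, hY, h⟩ := key2 (ε / 2) (by positivity)
    have hfin : {x : ℤ | ¬ (Y < f x)}.Finite := by
      have := hf.eventually (eventually_gt_atTop Y)
      rwa [Filter.eventually_cofinite] at this
    set K : ℝ := ({x : ℤ | ¬ (Y < f x)}.ncard : ℝ) with hK
    have hK0 : 0 ≤ K := by rw [hK]; positivity
    obtain ⟨N₀, hN₀⟩ := exists_nat_gt (2 * K / ε)
    refine ⟨N₀ + 1, fun N hN => ?_⟩
    have hN1 : (1 : ℝ) ≤ N := by
      have : 1 ≤ N := by omega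
      exact_mod_cast this
    have hN2 : (N₀ : ℝ) ≤ N := by
      have : N₀ ≤ N := by omega
      exact_mod_cast this
    rw [Real.dist_eq, sub_zero, abs_of_nonneg (by positivity), div_lt_iff₀ (by positivity)]
    have hsub : {x : ℤ | |x| ≤ (N : ℤ) ∧ ∀ n : ℕ, f x ≤ |(((T d m r)^[n] x : ℤ) : ℝ)|} ⊆
        {x : ℤ | |(x : ℝ)| ≤ (N : ℝ) ∧ ∀ n : ℕ, Y < |(((T d m r)^[n] x : ℤ) : ℝ)|} ∪
        {x : ℤ | ¬ (Y < f x)} := by
      rintro x ⟨hx, hx2⟩
      by_cases hY2 : Y < f x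
      · left
        refine ⟨?_, fun n => lt_of_lt_of_le hY2 (hx2 n)⟩
        exact_mod_cast hx
      · right; exact hY2
    have h1 : (Set.ncard {x : ℤ | |x| ≤ (N : ℤ) ∧
        ∀ n : ℕ, f x ≤ |(((T d m r)^[n] x : ℤ) : ℝ)|} : ℝ) ≤
        (Set.ncard {x : ℤ | |(x : ℝ)| ≤ (N : ℝ) ∧
          ∀ n : ℕ, Y < |(((T d m r)^[n] x : ℤ) : ℝ)|} : ℝ) + K := by
      have h2 := Set.ncard_le_ncard hsub ((fin _ _).union hfin)
      have h3 := Set.ncard_union_le {x : ℤ | |(x : ℝ)| ≤ (N : ℝ) ∧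
        ∀ n : ℕ, Y < |(((T d m r)^[n] x : ℤ) : ℝ)|} {x : ℤ | ¬ (Y < f x)}
      rw [hK]
      exact_mod_cast h2.trans h3
    have h4 := h N hN1
    have h5 : K < ε / 2 * N₀ := by
      rw [div_lt_iff₀ hε] at hN₀
      linarith
    have h6 : ε / 2 * N₀ ≤ ε / 2 * N := by gcongr
    nlinarith

end Pool.Agent.Results.MP_fd8838_nt.AlmostBounded
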