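import Mathlib
import Pool.Agent.H319R3.DN.T13
import Pool.Agent.H319R3.DN.T14
import Pool.Agent.H319R3.GC.Main
import Pool.Agent.H319R2.GMoller2

set_option autoImplicit false

/-!
Generalised Hasse–Syracuse maps in Möller's range: the natural densities of all invariant sets.
-/

namespace Pool.Agent.Results.MP_fd8838_nt.NaturalDensities

open Finset Filter Topology

/-- the map `T(n) = n / d` if `d ∣ n` and `(m n - r_j) / d` if `n ≡ j mod d`, `1 ≤ j < d` -/
def T (d m : ℕ) (r : ℕ → ℤ) (n : ℤ) : ℤ :=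
  if (d : ℤ) ∣ n then n / d else (m * n - r (n % d).toNat) / d

/-- `S` is invariant: `x ∈ S` if and only if `T x ∈ S` (unions of classes of trajectories that
meet). -/
def Invariant (d m : ℕ) (r : ℕ → ℤ) (S : Set ℤ) : Prop := ∀ x : ℤ, x ∈ S ↔ T d m r x ∈ S

/-- `S` has natural density `δ` on the side `σ` (`σ = 1`: positive integers, `σ = -1`: negative
integers): `#{x ∈ S : 1 ≤ σ x ≤ N} / N → δ`. -/
def HasDensity (S : Set ℤ) (σ : ℤ) (δ : ℝ) : Prop :=
  Tendsto (fun N : ℕ => (Set.ncard {x : ℤ | x ∈ S ∧ 1 ≤ σ * x ∧ σ * x ≤ N} : ℝ) / N) atTop (𝓝 δ)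

/-- Let `gcd(m, d) = 1`, `2 ≤ m ≤ d ^ (d / (d - 1))` and `r_j ≡ m j mod d`.
(1) Every invariant set has a natural density on each side.
(2) The densities are countably additive on disjoint invariant sets.
(3) For every `B` there is `C` such that an invariant set that contains no integer of `[-y, y]` has
density at most `C / (log y) ^ B`. -/
theorem result (d m : ℕ) (hd : 2 ≤ d) (hm : 2 ≤ m) (hc : Nat.Coprime m d)
    (hle : (m : ℝ) ≤ (d : ℝ) ^ ((d : ℝ) / ((d : ℝ) - 1)))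
    (r : ℕ → ℤ) (hr : ∀ j : ℕ, 1 ≤ j → j < d → r j ≡ m * j [ZMOD d]) :
    (∀ S : Set ℤ, Invariant d m r S → ∃ a b : ℝ, HasDensity S 1 a ∧ HasDensity S (-1) b) ∧
    (∀ S : ℕ → Set ℤ, (∀ n, Invariant d m r (S n)) → (∀ n n', n ≠ n' → Disjoint (S n) (S n')) →
      ∀ σ : ℤ, (σ = 1 ∨ σ = -1) → ∀ δ : ℕ → ℝ, (∀ n, HasDensity (S n) σ (δ n)) →
        Summable δ ∧ HasDensity (⋃ n, S n) σ (∑' n, δ n)) ∧
    (∀ B : ℕ, ∃ C : ℝ, 0 < C ∧ ∀ S : Set ℤ, Invariant d m r S → ∀ y : ℝ, 2 ≤ y →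
      (∀ x ∈ S, y < |(x : ℝ)|) → ∀ σ : ℤ, (σ = 1 ∨ σ = -1) → ∀ δ : ℝ, HasDensity S σ δ →
        δ ≤ C / Real.log y ^ B) := by
  have hd0 : 0 < d := by omega
  set m' : ℕ → ℤ := fun i => if i = 0 then 1 else (m : ℤ) with hm'
  set r' : ℕ → ℤ := fun i => if i = 0 then 0 else r i with hr'
  have hT : T d m r = H319R3.GC.Tm d m' r' := by
    funext n
    unfold T H319R3.GC.Tm
    have hn0 : 0 ≤ n % (d : ℤ) := Int.emod_nonneg _ (by omega)
    by_cases h : (d : ℤ) ∣ n
    · have h1 : (n % (d : ℤ)).toNat = 0 := by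
        rw [Int.emod_eq_zero_of_dvd h]; rfl
      rw [if_pos h, h1]
      simp [hm', hr']
    · have h1 : (n % (d : ℤ)).toNat ≠ 0 := by
        intro h2
        apply h
        apply Int.dvd_of_emod_eq_zero
        omega
      rw [if_neg h]
      simp [hm', hr', h1]
  have hcop : ∀ i < d, IsCoprime (m' i) (d : ℤ) := by
    intro i _
    simp only [hm']
    split_ifs
    · exact isCoprime_one_left
    · exact Nat.isCoprime_iff_coprime.2 hc
  have hadm : ∀ i < d, (d : ℤ) ∣ m' i * i - r' i := by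
    intro i hi
    simp only [hm', hr']
    split_ifs with h0
    · subst h0; simp
    · exact (hr i (by omega) hi).dvd
  have hprod : ∏ i ∈ range d, (m' i).natAbs < d ^ d ∧ 2 ≤ ∏ i ∈ range d, (m' i).natAbs := by
    obtain ⟨e, rfl⟩ : ∃ e, d = e + 1 := ⟨d - 1, by omega⟩
    rw [Finset.prod_range_succ']
    have h1 : ∀ i ∈ range e, (m' (i + 1)).natAbs = m := by
      intro i _
      simp [hm']
    rw [Finset.prod_congr rfl h1, Finset.prod_const, card_range]
    have h2 : (m' 0).natAbs = 1 := by simp [hm']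
    rw [h2, mul_one]
    have h3 := Pool.Agent.H319R2.Moller.pow_le_of_rpow (d := e + 1) (m := m) hd hle
    simp only [Nat.add_sub_cancel] at h3
    constructor
    · refine lt_of_le_of_ne h3 ?_
      intro h4
      have h5 : Nat.Coprime (m ^ e) ((e + 1) ^ (e + 1)) := Nat.Coprime.pow _ _ hc
      rw [h4, Nat.coprime_self] at h5
      have : 1 < (e + 1) ^ (e + 1) := Nat.one_lt_pow (by omega) (by omega)
      omega
    · calc 2 ≤ m := hm
        _ = m ^ 1 := (pow_one m).symm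
        _ ≤ m ^ e := Nat.pow_le_pow_right (by omega) (by omega)
  have hA : H319R3.GC.Adm d m' r' := ⟨hd, hcop, hadm, hprod.1, hprod.2⟩
  have hij' : (m' 0).natAbs ≠ (m' 1).natAbs := by
    simp [hm']
    omega
  have hi : 0 < d := hd0
  have hj : 1 < d := by omega
  have hInv : ∀ S : Set ℤ, Invariant d m r S → H319R3.DN.Inv d m' r' S := by
    intro S hS x
    have := hS x
    rwa [hT] at this
  have hGN : ∀ (S : Set ℤ) (σ : ℤ), (σ = 1 ∨ σ = -1) → ∀ N : ℕ,
      H319R3.DN.G S σ ((N : ℝ) + 1) =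
        (Set.ncard {x : ℤ | x ∈ S ∧ 1 ≤ σ * x ∧ σ * x ≤ N} : ℝ) := by
    intro S σ hσ N
    unfold H319R3.DN.G
    congr 2
    ext x
    simp only [Set.mem_ofPred_eq]
    constructor
    · rintro ⟨h1, h2, h3⟩
      refine ⟨h1, by omega, ?_⟩
      have h4 : (σ * x : ℤ) < (N : ℤ) + 1 := by exact_mod_cast h3
      omega
    · rintro ⟨h1, h2, h3⟩
      refine ⟨h1, by omega, ?_⟩
      have h4 : (σ * x : ℤ) < (N : ℤ) + 1 := by omega
      exact_mod_cast h4
  -- comparison of the two kinds of limits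
  have hcomp : ∀ (S : Set ℤ) (σ : ℤ), (σ = 1 ∨ σ = -1) → ∀ δ : ℝ,
      Tendsto (fun X : ℝ => H319R3.DN.G S σ X / X) atTop (𝓝 δ) → HasDensity S σ δ := by
    intro S σ hσ δ hδ
    unfold HasDensity
    have h1 : Tendsto (fun N : ℕ => ((N : ℝ) + 1)) atTop atTop :=
      tendsto_atTop_add_const_right _ _ tendsto_natCast_atTop_atTop
    have h2 := hδ.comp h1
    have h3 : Tendsto (fun N : ℕ => ((N : ℝ) + 1) / N) atTop (𝓝 1) := by
      have h4 : Tendsto (fun N : ℕ => 1 + 1 / (N : ℝ)) atTop (𝓝 (1 + 0)) :=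
        tendsto_const_nhds.add tendsto_one_div_atTop_nhds_zero_nat
      rw [add_zero] at h4
      refine h4.congr' ?_
      filter_upwards [eventually_gt_atTop 0] with N hN
      have : (0 : ℝ) < N := by exact_mod_cast hN
      field_simp
    have h5 := h2.mul h3
    rw [mul_one] at h5
    refine h5.congr' ?_
    filter_upwards [eventually_gt_atTop 0] with N hN
    have : (0 : ℝ) < N := by exact_mod_cast hN
    simp only [Function.comp]
    rw [hGN S σ hσ N]
    field_simp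
  refine ⟨?_, ?_, ?_⟩
  · intro S hS
    obtain ⟨l, hl, -⟩ := H319R3.DN.density hA hi hj hij' (S := S) (hInv S hS)
    exact ⟨l 1, l (-1), hcomp S 1 (Or.inl rfl) _ (hl 1 (Or.inl rfl)),
      hcomp S (-1) (Or.inr rfl) _ (hl (-1) (Or.inr rfl))⟩
  · intro S hS hdis σ hσ δ hδ
    have hδ' : ∀ n, Tendsto (fun X : ℝ => H319R3.DN.G (S n) σ X / X) atTop (𝓝 (δ n)) := by
      intro n
      obtain ⟨l, hl, -⟩ := H319R3.DN.density hA hi hj hij' (S := S n) (hInv _ (hS n))
      have h1 := hl σ hσ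
      have h2 := hcomp (S n) σ hσ _ h1
      have h3 := tendsto_nhds_unique h2 (hδ n)
      rwa [h3] at h1
    obtain ⟨h1, h2⟩ := H319R3.DN.additive hA hi hj hij' (fun n => hInv _ (hS n)) hdis hσ hδ'
    exact ⟨h1, hcomp _ σ hσ _ h2⟩
  · intro B
    obtain ⟨C, hC, hmain⟩ := H319R3.GC.main hA B
    refine ⟨C, hC, ?_⟩
    intro S hS y hy hSy σ hσ δ hδ
    refine le_of_tendsto hδ ?_
    filter_upwards [eventually_gt_atTop 0] with N hN
    have hN0 : (0 : ℝ) < N := by exact_mod_cast hN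
    have hN1 : (1 : ℝ) ≤ N := by exact_mod_cast hN
    have hlog : 0 < Real.log y := Real.log_pos (by linarith)
    rw [div_le_iff₀ hN0]
    have h1 := hmain N y hN1 hy
    have hiter : ∀ (k : ℕ) (x : ℤ), x ∈ S → (H319R3.GC.Tm d m' r')^[k] x ∈ S := by
      intro k
      induction k with
      | zero => intro x hx; exact hx
      | succ k ih =>
        intro x hx
        rw [Function.iterate_succ_apply]
        exact ih _ ((hInv S hS x).1 hx)
    have hfin : {x : ℤ | |(x : ℝ)| ≤ (N : ℝ) ∧ ∀ n : ℕ,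
        y < |(((H319R3.GC.Tm d m' r')^[n] x : ℤ) : ℝ)|}.Finite := by
      refine (Set.finite_Icc (-(N : ℤ)) N).subset ?_
      rintro x ⟨hx, -⟩
      have h2 : |x| ≤ (N : ℤ) := by exact_mod_cast hx
      exact Set.mem_Icc.2 (abs_le.1 h2)
    have hsub : {x : ℤ | x ∈ S ∧ 1 ≤ σ * x ∧ σ * x ≤ N} ⊆ {x : ℤ | |(x : ℝ)| ≤ (N : ℝ) ∧ ∀ n : ℕ,
        y < |(((H319R3.GC.Tm d m' r')^[n] x : ℤ) : ℝ)|} := by
      rintro x ⟨hx, hx1, hx2⟩
      refine ⟨?_, fun n => hSy _ (hiter n x hx)⟩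
      have h3 : |x| ≤ (N : ℤ) := by
        rcases hσ with rfl | rfl
        · rw [abs_le]; constructor <;> linarith
        · rw [abs_le]; constructor <;> linarith
      exact_mod_cast h3
    have h2 := Set.ncard_le_ncard hsub hfin
    have h3 : (Set.ncard {x : ℤ | x ∈ S ∧ 1 ≤ σ * x ∧ σ * x ≤ N} : ℝ) ≤ Set.ncard
        {x : ℤ | |(x : ℝ)| ≤ (N : ℝ) ∧ ∀ n : ℕ,
          y < |(((H319R3.GC.Tm d m' r')^[n] x : ℤ) : ℝ)|} := by exact_mod_cast h2
    calc (Set.ncard {x : ℤ | x ∈ S ∧ 1 ≤ σ * x ∧ σ * x ≤ N} : ℝ) ≤ C * N / Real.log y ^ B :=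
          h3.trans h1
      _ = C / Real.log y ^ B * N := by ring

end Pool.Agent.Results.MP_fd8838_nt.NaturalDensities
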