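import Mathlib
import Pool.Agent.H319R2.GMoller2

set_option autoImplicit false

/-!
Every orbit of a generalised Hasse–Syracuse map in Möller's range is power-sparse, uniformly in the
starting value.
-/

namespace Pool.Agent.Results.MP_fd8838_nt.OrbitCount

open Finset Filter

/-- the map `T(n) = n / d` if `d ∣ n` and `(m n - r_j) / d` if `n ≡ j mod d`, `1 ≤ j < d` -/
def T (d m : ℕ) (r : ℕ → ℤ) (n : ℤ) : ℤ :=
  if (d : ℤ) ∣ n then n / d else (m * n - r (n % d).toNat) / d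

/-- Let `gcd(m, d) = 1` and `r_j ≡ m j mod d`. For all real `s ≥ 0`, `η > 1 / 2` with
`1 + (d - 1) m ^ s < d ^ (s + η)` there is `C` such that every orbit of `T` contains at most
`C X ^ η` integers of absolute value at most `X`; such `s` and an `η < 1` exist if
`m ≤ d ^ (d / (d - 1))`. -/
theorem result (d m : ℕ) (hd : 2 ≤ d) (hm : 1 ≤ m) (hc : Nat.Coprime m d) :
    (∀ s η : ℝ, 0 ≤ s → 1 / 2 < η → 1 + ((d : ℝ) - 1) * (m : ℝ) ^ s < (d : ℝ) ^ (s + η) →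
      ∀ r : ℕ → ℤ, (∀ j : ℕ, 1 ≤ j → j < d → r j ≡ m * j [ZMOD d]) →
        ∃ C : ℝ, ∀ (x : ℤ) (X : ℝ), 1 ≤ X →
          (Set.ncard {y : ℤ | (∃ k : ℕ, (T d m r)^[k] x = y) ∧ |(y : ℝ)| ≤ X} : ℝ) ≤ C * X ^ η) ∧
    ((m : ℝ) ≤ (d : ℝ) ^ ((d : ℝ) / ((d : ℝ) - 1)) →
      ∃ s η : ℝ, 0 ≤ s ∧ 1 / 2 < η ∧ η < 1 ∧
        1 + ((d : ℝ) - 1) * (m : ℝ) ^ s < (d : ℝ) ^ (s + η)) := by
  classical
  refine ⟨?_, Pool.Agent.H319R2.Moller.exists_exps hd hm hc⟩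
  intro s η hs hη h r hr
  have hr' : ∀ j : ℕ, 1 ≤ j → j < d → (d : ℤ) ∣ m * j - r j := fun j h1 h2 => (hr j h1 h2).dvd
  obtain ⟨C, hC0, hC⟩ := (Pool.Agent.H319R2.Moller.gc d m r hd hc hr').orbit_sparse s η hs hη
    (Pool.Agent.H319R2.Moller.gc_cond hd hc hr' s η h)
  rw [Pool.Agent.H319R2.Moller.gc_T hd hc hr'] at hC
  refine ⟨C, fun x X hX => ?_⟩
  set S : Set ℤ := {y : ℤ | (∃ k : ℕ, (T d m r)^[k] x = y) ∧ |(y : ℝ)| ≤ X} with hS
  have hfin : S.Finite := by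
    apply (Set.finite_Icc (-⌈X⌉) ⌈X⌉).subset
    intro y hy
    have h := hy.2
    rw [abs_le] at h
    have h1 := Int.le_ceil X
    constructor
    · have : (-(⌈X⌉ : ℝ)) ≤ y := by linarith
      exact_mod_cast this
    · have : (y : ℝ) ≤ ⌈X⌉ := by linarith
      exact_mod_cast this
  rw [Set.ncard_eq_toFinset_card S hfin]
  apply hC x X hX
  intro y hy
  rw [Set.Finite.mem_toFinset] at hy
  exact hy

end Pool.Agent.Results.MP_fd8838_nt.OrbitCount
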