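import Mathlib
import Pool.Agent.H319R3.DN.T13
import Pool.Agent.H319R3.PO.P17
import Pool.Agent.H319R2.GMoller2

set_option autoImplicit false

/-!
Generalised Hasse–Syracuse maps in Möller's range: positive natural densities of basins.
-/

namespace Pool.Agent.Results.MP_fd8838_nt.PositiveBasins

open Finset Filter Topology

/-- the map `T(n) = n / d` if `d ∣ n` and `(m n - r_j) / d` if `n ≡ j mod d`, `1 ≤ j < d` -/
def T (d m : ℕ) (r : ℕ → ℤ) (n : ℤ) : ℤ :=
  if (d : ℤ) ∣ n then n / d else (m * n - r (n % d).toNat) / d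

/-- `S` is invariant: `x ∈ S` if and only if `T x ∈ S` (unions of classes of trajectories that
meet). -/
def Invariant (d m : ℕ) (r : ℕ → ℤ) (S : Set ℤ) : Prop := ∀ x : ℤ, x ∈ S ↔ T d m r x ∈ S

/-- `S` has natural density `δ` on the side `σ` (`σ = 1`: positive integers, `σ = -1`: negative
integers): `#{x ∈ S : 1 ≤ σ x ≤ N} / N → δ`. -/
def HasDensity (S : Set ℤ) (σ : ℤ) (δ : ℝ) : Prop :=
  Tendsto (fun N : ℕ => (Set.ncard {x : ℤ | x ∈ S ∧ 1 ≤ σ * x ∧ σ * x ≤ N} : ℝ) / N) atTop (𝓝 δ)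

/-- Let `gcd(m, d) = 1`, `2 ≤ m ≤ d ^ (d / (d - 1))` and `r_j ≡ m j mod d`.
(1) For every nonzero periodic point `c` the integers whose trajectory reaches `c` have a natural
density on the side of `c`, and it is positive.
(2) If `m` is a prime power or all `r_j` are prime to `m`, then every nonempty invariant set that
does not contain `0` has natural densities on both sides, and their sum is positive.
(3) Under the hypothesis of (2), if some trajectory is unbounded, then the integers with unbounded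
trajectory have natural densities on both sides with positive sum. -/
theorem result (d m : ℕ) (hd : 2 ≤ d) (hm : 2 ≤ m) (hc : Nat.Coprime m d)
    (hle : (m : ℝ) ≤ (d : ℝ) ^ ((d : ℝ) / ((d : ℝ) - 1)))
    (r : ℕ → ℤ) (hr : ∀ j : ℕ, 1 ≤ j → j < d → r j ≡ m * j [ZMOD d]) :
    (∀ c : ℤ, c ≠ 0 → (∃ p : ℕ, 1 ≤ p ∧ (T d m r)^[p] c = c) →
      ∃ δ : ℝ, 0 < δ ∧ HasDensity {x : ℤ | ∃ k : ℕ, (T d m r)^[k] x = c} c.sign δ) ∧
    ((IsPrimePow m ∨ ∀ j : ℕ, 1 ≤ j → j < d → IsCoprime (r j) (m : ℤ)) →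
      (∀ S : Set ℤ, Invariant d m r S → S.Nonempty → (0 : ℤ) ∉ S →
        ∃ a b : ℝ, HasDensity S 1 a ∧ HasDensity S (-1) b ∧ 0 < a + b) ∧
      ((∃ x : ℤ, ¬ ∃ K : ℤ, ∀ k : ℕ, |(T d m r)^[k] x| ≤ K) →
        ∃ a b : ℝ, HasDensity {x : ℤ | ¬ ∃ K : ℤ, ∀ k : ℕ, |(T d m r)^[k] x| ≤ K} 1 a ∧
          HasDensity {x : ℤ | ¬ ∃ K : ℤ, ∀ k : ℕ, |(T d m r)^[k] x| ≤ K} (-1) b ∧ 0 < a + b)) := by
  have hd0 : 0 < d := by omega
  set m' : ℕ → ℤ := fun i => if i = 0 then 1 else (m : ℤ) with hm'
  set r' : ℕ → ℤ := fun i => if i = 0 then 0 else r i with hr'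
  have hT : T d m r = H319R3.GC.Tm d m' r' := by
    funext n
    unfold T H319R3.GC.Tm
    have hn0 : 0 ≤ n % (d : ℤ) := Int.emod_nonneg _ (by omega)
    by_cases h : (d : ℤ) ∣ n
    · have h1 : (n % (d : ℤ)).toNat = 0 := by
        rw [Int.emod_eq_zero_of_dvd h]; rfl
      rw [if_pos h, h1]
      simp [hm', hr']
    · have h1 : (n % (d : ℤ)).toNat ≠ 0 := by
        intro h2
        apply h
        apply Int.dvd_of_emod_eq_zero
        omega
      rw [if_neg h]
      simp [hm', hr', h1]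
  have hcop : ∀ i < d, IsCoprime (m' i) (d : ℤ) := by
    intro i _
    simp only [hm']
    split_ifs
    · exact isCoprime_one_left
    · exact Nat.isCoprime_iff_coprime.2 hc
  have hadm : ∀ i < d, (d : ℤ) ∣ m' i * i - r' i := by
    intro i hi
    simp only [hm', hr']
    split_ifs with h0
    · subst h0; simp
    · exact (hr i (by omega) hi).dvd
  have hprod : ∏ i ∈ range d, (m' i).natAbs < d ^ d ∧ 2 ≤ ∏ i ∈ range d, (m' i).natAbs := by
    obtain ⟨e, rfl⟩ : ∃ e, d = e + 1 := ⟨d - 1, by omega⟩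
    rw [Finset.prod_range_succ']
    have h1 : ∀ i ∈ range e, (m' (i + 1)).natAbs = m := by
      intro i _
      simp [hm']
    rw [Finset.prod_congr rfl h1, Finset.prod_const, card_range]
    have h2 : (m' 0).natAbs = 1 := by simp [hm']
    rw [h2, mul_one]
    have h3 := Pool.Agent.H319R2.Moller.pow_le_of_rpow (d := e + 1) (m := m) hd hle
    simp only [Nat.add_sub_cancel] at h3
    constructor
    · refine lt_of_le_of_ne h3 ?_
      intro h4
      have h5 : Nat.Coprime (m ^ e) ((e + 1) ^ (e + 1)) := Nat.Coprime.pow _ _ hc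
      rw [h4, Nat.coprime_self] at h5
      have : 1 < (e + 1) ^ (e + 1) := Nat.one_lt_pow (by omega) (by omega)
      omega
    · calc 2 ≤ m := hm
        _ = m ^ 1 := (pow_one m).symm
        _ ≤ m ^ e := Nat.pow_le_pow_right (by omega) (by omega)
  have hA : H319R3.GC.Adm d m' r' := ⟨hd, hcop, hadm, hprod.1, hprod.2⟩
  have hij' : (m' 0).natAbs ≠ (m' 1).natAbs := by
    simp [hm']
    omega
  have hi : 0 < d := hd0
  have hj : 1 < d := by omega
  have hInv : ∀ S : Set ℤ, Invariant d m r S → H319R3.DN.Inv d m' r' S := by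
    intro S hS x
    have := hS x
    rwa [hT] at this
  have hGN : ∀ (S : Set ℤ) (σ : ℤ), (σ = 1 ∨ σ = -1) → ∀ N : ℕ,
      H319R3.DN.G S σ ((N : ℝ) + 1) =
        (Set.ncard {x : ℤ | x ∈ S ∧ 1 ≤ σ * x ∧ σ * x ≤ N} : ℝ) := by
    intro S σ hσ N
    unfold H319R3.DN.G
    congr 2
    ext x
    simp only [Set.mem_ofPred_eq]
    constructor
    · rintro ⟨h1, h2, h3⟩
      refine ⟨h1, by omega, ?_⟩
      have h4 : (σ * x : ℤ) < (N : ℤ) + 1 := by exact_mod_cast h3
      omega
    · rintro ⟨h1, h2, h3⟩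
      refine ⟨h1, by omega, ?_⟩
      have h4 : (σ * x : ℤ) < (N : ℤ) + 1 := by omega
      exact_mod_cast h4
  -- comparison of the two kinds of limits
  have hcomp : ∀ (S : Set ℤ) (σ : ℤ), (σ = 1 ∨ σ = -1) → ∀ δ : ℝ,
      Tendsto (fun X : ℝ => H319R3.DN.G S σ X / X) atTop (𝓝 δ) → HasDensity S σ δ := by
    intro S σ hσ δ hδ
    unfold HasDensity
    have h1 : Tendsto (fun N : ℕ => ((N : ℝ) + 1)) atTop atTop :=
      tendsto_atTop_add_const_right _ _ tendsto_natCast_atTop_atTop
    have h2 := hδ.comp h1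
    have h3 : Tendsto (fun N : ℕ => ((N : ℝ) + 1) / N) atTop (𝓝 1) := by
      have h4 : Tendsto (fun N : ℕ => 1 + 1 / (N : ℝ)) atTop (𝓝 (1 + 0)) :=
        tendsto_const_nhds.add tendsto_one_div_atTop_nhds_zero_nat
      rw [add_zero] at h4
      refine h4.congr' ?_
      filter_upwards [eventually_gt_atTop 0] with N hN
      have : (0 : ℝ) < N := by exact_mod_cast hN
      field_simp
    have h5 := h2.mul h3
    rw [mul_one] at h5
    refine h5.congr' ?_
    filter_upwards [eventually_gt_atTop 0] with N hN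
    have : (0 : ℝ) < N := by exact_mod_cast hN
    simp only [Function.comp]
    rw [hGN S σ hσ N]
    field_simp
  have hMol : H319R3.PO.Mol d m m' r' := by
    refine ⟨by simp [hm'], by simp [hr'], ?_⟩
    intro i hi1 _
    have : i ≠ 0 := by omega
    simp [hm', this]
  have hdens : ∀ S : Set ℤ, Invariant d m r S → ∃ l : ℤ → ℝ, ∀ σ : ℤ, (σ = 1 ∨ σ = -1) →
      Tendsto (fun X : ℝ => H319R3.DN.G S σ X / X) atTop (𝓝 (l σ)) ∧ HasDensity S σ (l σ) := by
    intro S hS
    obtain ⟨l, hl, -⟩ := H319R3.DN.density hA hi hj hij' (S := S) (hInv S hS)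
    exact ⟨l, fun σ hσ => ⟨hl σ hσ, hcomp S σ hσ _ (hl σ hσ)⟩⟩
  have hnn : ∀ (S : Set ℤ) (σ : ℤ) (δ : ℝ), HasDensity S σ δ → 0 ≤ δ := by
    intro S σ δ hδ
    refine ge_of_tendsto' hδ ?_
    intro N
    positivity
  have part2 : (IsPrimePow m ∨ ∀ j : ℕ, 1 ≤ j → j < d → IsCoprime (r j) (m : ℤ)) →
      ∀ S : Set ℤ, Invariant d m r S → S.Nonempty → (0 : ℤ) ∉ S →
        ∃ a b : ℝ, HasDensity S 1 a ∧ HasDensity S (-1) b ∧ 0 < a + b := by
    intro hcond S hS hSn hS0
    obtain ⟨l, hl⟩ := hdens S hS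
    have h1 := hl 1 (Or.inl rfl)
    have h2 := hl (-1) (Or.inr rfl)
    refine ⟨l 1, l (-1), h1.2, h2.2, ?_⟩
    have hc' : (∀ i, 1 ≤ i → i < d → IsCoprime (r' i) (m : ℤ)) ∨ IsPrimePow m := by
      rcases hcond with hcond | hcond
      · exact Or.inr hcond
      · left
        intro i hi1 hid
        have : i ≠ 0 := by omega
        simp only [hr', this, if_false]
        exact hcond i hi1 hid
    have h3 := H319R3.PO.moeller_general hA hm hMol hc' (hInv S hS) hSn hS0
    have h4 := hnn S 1 _ h1.2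
    have h5 := hnn S (-1) _ h2.2
    by_contra hcon
    have h6 : l 1 = 0 := by linarith
    have h7 : l (-1) = 0 := by linarith
    apply h3
    refine ⟨?_, ?_⟩
    · have := h1.1
      rwa [h6] at this
    · have := h2.1
      rwa [h7] at this
  refine ⟨?_, fun hcond => ⟨part2 hcond, ?_⟩⟩
  · intro c hc0 hper
    obtain ⟨p, hp, hper⟩ := hper
    set S : Set ℤ := {x : ℤ | ∃ k : ℕ, (T d m r)^[k] x = c} with hSdef
    have hS : Invariant d m r S := by
      intro x
      constructor
      · rintro ⟨k, hk⟩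
        rcases Nat.eq_zero_or_pos k with h0 | h0
        · subst h0
          refine ⟨p - 1, ?_⟩
          rw [← Function.iterate_succ_apply, show (p - 1).succ = p by omega]
          rw [Function.iterate_zero, id] at hk
          rw [hk]
          exact hper
        · refine ⟨k - 1, ?_⟩
          rw [← Function.iterate_succ_apply, show (k - 1).succ = k by omega]
          exact hk
      · rintro ⟨k, hk⟩
        exact ⟨k + 1, by rw [Function.iterate_succ_apply]; exact hk⟩
    have hσ : c.sign = 1 ∨ c.sign = -1 := by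
      rcases lt_or_gt_of_ne hc0 with h | h
      · right; exact Int.sign_eq_neg_one_of_neg h
      · left; exact Int.sign_eq_one_of_pos h
    have hcs : 0 < c.sign * c := by
      rw [Int.sign_mul_self_eq_abs]
      exact abs_pos.2 hc0
    obtain ⟨l, hl⟩ := hdens S hS
    have h1 := hl c.sign hσ
    refine ⟨l c.sign, ?_, h1.2⟩
    have h2 := hnn S c.sign _ h1.2
    rcases h2.lt_or_eq with h3 | h3
    · exact h3
    · exfalso
      have hcS : c ∈ S := ⟨0, rfl⟩
      have hper' : (H319R3.GC.Tm d m' r')^[p] c = c := by rw [← hT]; exact hper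
      have h4 := H319R3.PO.moeller_cycle hA hm hMol (hInv S hS) hcS hp hper' hσ hcs
      apply h4
      have := h1.1
      rwa [← h3] at this
  · rintro ⟨x₀, hx₀⟩
    refine part2 hcond _ ?_ ⟨x₀, hx₀⟩ ?_
    · intro x
      show (¬ ∃ K : ℤ, ∀ k : ℕ, |(T d m r)^[k] x| ≤ K) ↔
        (¬ ∃ K : ℤ, ∀ k : ℕ, |(T d m r)^[k] (T d m r x)| ≤ K)
      rw [not_iff_not]
      constructor
      · rintro ⟨K, hK⟩
        refine ⟨K, fun k => ?_⟩
        rw [← Function.iterate_succ_apply]
        exact hK _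
      · rintro ⟨K, hK⟩
        refine ⟨max K |x|, fun k => ?_⟩
        rcases Nat.eq_zero_or_pos k with h0 | h0
        · subst h0
          exact le_max_right _ _
        · have h1 := hK (k - 1)
          rw [← Function.iterate_succ_apply, show (k - 1).succ = k by omega] at h1
          exact h1.trans (le_max_left _ _)
    · intro h0
      apply h0
      refine ⟨0, fun k => ?_⟩
      have hT0 : T d m r 0 = 0 := by simp [T]
      have : (T d m r)^[k] 0 = 0 := Function.iterate_fixed hT0 k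
      rw [this]
      simp

end Pool.Agent.Results.MP_fd8838_nt.PositiveBasins
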